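import Pool.Agent.LeoK.CountStmts

/-!
Squad leok, module MRC: residue classes of the family.
-/

set_option autoImplicit false

open NumberField IsDedekindDomain Module

namespace Pool.Agent.LeoK.H37

theorem ncard_unit {A : Type} (P : A → Prop) :
    {x : Unit → A | P (x ())}.ncard = Nat.card {a : A // P a} := by
  rw [← Nat.card_coe_set_eq]
  exact Nat.card_congr
    { toFun := fun x => ⟨x.1 (), x.2⟩
      invFun := fun a => ⟨fun _ => a.1, a.2⟩
      left_inv := fun x => rfl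
      right_inv := fun a => rfl }

variable {k : Type} [Field k] [NumberField k]

theorem mrc_local (hlm3 : Lm3Stmt) (p : HeightOneSpectrum (𝓞 k)) (h2 : (2 : 𝓞 k) ∉ p.asIdeal) :
    ∃ (j : ℕ) (T : Set (Unit → 𝓞 k ⧸ p.asIdeal ^ j)),
      (∀ m : 𝓞 k, (fun _ => Ideal.Quotient.mk (p.asIdeal ^ j) m) ∈ T → LocOK p m) ∧
      (T.ncard : ℝ) = (Ideal.absNorm (p.asIdeal ^ j) : ℝ) * dm p := by
  by_cases h3 : (3 : 𝓞 k) ∈ p.asIdeal
  · have key : ∀ J : Ideal (𝓞 k), J = p.asIdeal →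
        ∃ T : Set (Unit → 𝓞 k ⧸ J),
        (∀ m : 𝓞 k, (fun _ => Ideal.Quotient.mk J m) ∈ T → LocOK p m) ∧
        (T.ncard : ℝ) = (Ideal.absNorm J : ℝ) * dm p := by
      rintro J rfl
      refine ⟨{x | (fun a => ∀ y, y ^ 2 + a ≠ 0) (x ())}, ?_, ?_⟩
      · intro m hm
        have hm' : ∀ y : 𝓞 k ⧸ p.asIdeal, y ^ 2 + Ideal.Quotient.mk p.asIdeal m ≠ 0 := hm
        have hmp : m ∉ p.asIdeal := by
          intro h
          apply hm' 0
          rw [Ideal.Quotient.eq_zero_iff_mem.2 h]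
          ring
        refine ⟨fun h => hmp (Ideal.pow_le_self two_ne_zero h), fun h => absurd h h2, fun _ x hx => ?_⟩
        apply hm' (Ideal.Quotient.mk p.asIdeal x)
        rw [← map_pow, ← map_add]
        exact Ideal.Quotient.eq_zero_iff_mem.2 hx
      · have e := ncard_unit (fun a : 𝓞 k ⧸ p.asIdeal => ∀ y, y ^ 2 + a ≠ 0)
        have e' := (hlm3 k p h2).1 h3
        rw [← e] at e'
        exact e'
    exact ⟨1, key _ (pow_one _)⟩
  · refine ⟨2, {x | (fun a => a ≠ 0) (x ())}, ?_, ?_⟩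
    · intro m hm
      have hm' : Ideal.Quotient.mk (p.asIdeal ^ 2) m ≠ 0 := hm
      exact ⟨fun h => hm' (Ideal.Quotient.eq_zero_iff_mem.2 h), fun h => absurd h h2,
        fun h => absurd h h3⟩
    · have e := ncard_unit (fun a : 𝓞 k ⧸ p.asIdeal ^ 2 => a ≠ 0)
      have e' := (hlm3 k p h2).2 h3
      rw [← e] at e'
      rw [map_pow]
      push_cast
      exact e'

theorem absNorm_four : (Ideal.absNorm (Ideal.span {(4 : 𝓞 k)}) : ℝ) = 4 ^ finrank ℚ k := by
  rw [Ideal.absNorm_span_singleton]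
  have h : (4 : 𝓞 k) = algebraMap ℤ (𝓞 k) 4 := by simp
  rw [h, Algebra.norm_algebraMap, NumberField.RingOfIntegers.rank, Int.natAbs_pow]
  norm_num

theorem mrc (hres : ResStmt) (hlm2 : Lm2Stmt) (hlmu : LmuStmt) (hlm3 : Lm3Stmt) : MrcStmt := by
  intro k _ _ Q hQ
  classical
  set Q2 : Finset (HeightOneSpectrum (𝓞 k)) := Q.filter (fun p => (2 : 𝓞 k) ∈ p.asIdeal) with hQ2
  set Q' : Finset (HeightOneSpectrum (𝓞 k)) := Q.filter (fun p => ¬ (2 : 𝓞 k) ∈ p.asIdeal) with hQ'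
  have hQ'2 : ∀ p : Q', (2 : 𝓞 k) ∉ (p : HeightOneSpectrum (𝓞 k)).asIdeal := fun p =>
    (Finset.mem_filter.1 p.2).2
  choose j T hT1 hT2 using fun p : Q' => mrc_local hlm3 (p : HeightOneSpectrum (𝓞 k)) (hQ'2 p)
  -- the ideals
  let I : Option Q' → Ideal (𝓞 k) := fun o =>
    match o with
    | none => Ideal.span {(4 : 𝓞 k)}
    | some p => (p : HeightOneSpectrum (𝓞 k)).asIdeal ^ (j p)
  let S : ∀ o : Option Q', Set (Unit → 𝓞 k ⧸ I o) := fun o =>
    match o with
    | none => {x : Unit → 𝓞 k ⧸ Ideal.span {(4 : 𝓞 k)} |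
        (fun a => ∃ q, IsUnit q ∧ q ^ 2 + a = 0) (x ())}
    | some p => T p
  have h4 : ∀ p : Q', IsCoprime (Ideal.span {(4 : 𝓞 k)})
      ((p : HeightOneSpectrum (𝓞 k)).asIdeal ^ (j p)) := by
    intro p
    apply IsCoprime.pow_right
    have hmax : (p : HeightOneSpectrum (𝓞 k)).asIdeal.IsMaximal := p.1.isMaximal
    rw [Ideal.isCoprime_iff_sup_eq, sup_comm]
    apply hmax.out.2
    apply lt_of_le_of_ne le_sup_left
    intro h
    have h5 : (4 : 𝓞 k) ∈ (p : HeightOneSpectrum (𝓞 k)).asIdeal := by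
      rw [h]
      exact Ideal.mem_sup_right (Ideal.mem_span_singleton_self _)
    have h6 : (4 : 𝓞 k) = 2 * 2 := by norm_num
    rw [h6] at h5
    rcases p.1.isPrime.mem_or_mem h5 with h7 | h7 <;> exact hQ'2 p h7
  have hpq : ∀ p q : Q', p ≠ q → IsCoprime ((p : HeightOneSpectrum (𝓞 k)).asIdeal ^ (j p))
      ((q : HeightOneSpectrum (𝓞 k)).asIdeal ^ (j q)) := by
    intro p q hne
    apply IsCoprime.pow
    have hi := p.1.isMaximal
    have hj := q.1.isMaximal
    rw [Ideal.isCoprime_iff_sup_eq]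
    apply hi.coprime_of_ne hj
    intro h
    exact hne (Subtype.ext (HeightOneSpectrum.ext h))
  have hcop : ∀ a b : Option Q', a ≠ b → IsCoprime (I a) (I b) := by
    intro a b hab
    match a, b with
    | none, none => exact absurd rfl hab
    | none, some p => exact h4 p
    | some p, none => exact (h4 p).symm
    | some p, some q => exact hpq p q (fun h => hab (by rw [h]))
  obtain ⟨T', hT'1, hT'2⟩ := hres (𝓞 k) (Option Q') Unit I hcop S
  have h40 : Ideal.span {(4 : 𝓞 k)} ≠ ⊥ := by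
    rw [Ne, Ideal.span_singleton_eq_bot]
    norm_num
  refine ⟨∏ i, I i, {c | (fun _ => c) ∈ T'}, ?_, ?_, ?_⟩
  · apply Finset.prod_ne_zero_iff.2
    intro i _
    match i with
    | none => exact h40
    | some p => exact pow_ne_zero _ p.1.ne_bot
  · intro m hm
    have h1 := (hT'1 (fun _ => m)).1 hm
    have h2 : ∃ q : 𝓞 k ⧸ Ideal.span {(4 : 𝓞 k)}, IsUnit q ∧
      q ^ 2 + Ideal.Quotient.mk (Ideal.span {(4 : 𝓞 k)}) m = 0 := h1 none
    obtain ⟨q, hqu, hqm⟩ := h2
    obtain ⟨q₀, rfl⟩ := Ideal.Quotient.mk_surjective q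
    have h3 : (4 : 𝓞 k) ∣ q₀ ^ 2 + m := by
      rw [← Ideal.mem_span_singleton, ← Ideal.Quotient.eq_zero_iff_mem, map_add, map_pow]
      exact hqm
    refine ⟨⟨q₀, h3⟩, ?_⟩
    intro p hp
    by_cases hp2 : (2 : 𝓞 k) ∈ p.asIdeal
    · have hp4 : (4 : 𝓞 k) ∈ p.asIdeal := by
        have : (4 : 𝓞 k) = 2 * 2 := by norm_num
        rw [this]
        exact p.asIdeal.mul_mem_left _ hp2
      have hle : Ideal.span {(4 : 𝓞 k)} ≤ p.asIdeal := by
        rw [Ideal.span_singleton_le_iff_mem]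
        exact hp4
      have hone : (1 : 𝓞 k) ∉ p.asIdeal := fun h =>
        p.isPrime.ne_top ((Ideal.eq_top_iff_one _).2 h)
      have hq₀ : q₀ ∉ p.asIdeal := by
        intro h
        obtain ⟨r, hr⟩ := hqu.exists_right_inv
        obtain ⟨r₀, rfl⟩ := Ideal.Quotient.mk_surjective r
        rw [← map_mul, ← map_one (Ideal.Quotient.mk (Ideal.span {(4 : 𝓞 k)})),
          Ideal.Quotient.mk_eq_mk_iff_sub_mem] at hr
        have h5 := hle hr
        apply hone
        have h6 : (1 : 𝓞 k) = q₀ * r₀ - (q₀ * r₀ - 1) := by ring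
        rw [h6]
        exact p.asIdeal.sub_mem (p.asIdeal.mul_mem_right _ h) h5
      have hm' : m ∉ p.asIdeal := by
        intro h
        have h5 : q₀ ^ 2 + m ∈ p.asIdeal := by
          obtain ⟨c, hc⟩ := h3
          rw [hc]
          exact p.asIdeal.mul_mem_right _ hp4
        have h6 : q₀ ^ 2 ∈ p.asIdeal := by
          have : q₀ ^ 2 = (q₀ ^ 2 + m) - m := by ring
          rw [this]
          exact p.asIdeal.sub_mem h5 h
        exact hq₀ (p.isPrime.mem_of_pow_mem 2 h6)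
      refine ⟨fun h => hm' (Ideal.pow_le_self two_ne_zero h), fun _ => hm', fun hp3 => ?_⟩
      exfalso
      apply hone
      have h6 : (1 : 𝓞 k) = 3 - 2 := by norm_num
      rw [h6]
      exact p.asIdeal.sub_mem hp3 hp2
    · have hpQ : p ∈ Q' := Finset.mem_filter.2 ⟨hp, hp2⟩
      have h5 := h1 (some ⟨p, hpQ⟩)
      exact hT1 ⟨p, hpQ⟩ m h5
  · have e1 : ({c | (fun _ => c) ∈ T'} : Set (𝓞 k ⧸ ∏ i, I i)).ncard = T'.ncard := by
      apply Set.ncard_congr (fun c _ => fun _ => c)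
      · intro c hc
        exact hc
      · intro a b _ _ h
        exact congrFun h ()
      · intro c hc
        exact ⟨c (), hc, rfl⟩
    have e2 : (S none).ncard * 2 ^ finrank ℚ k =
        Nat.card (𝓞 k ⧸ Ideal.span {(4 : 𝓞 k)})ˣ := by
      have e3 := hlm2 k
      have e4 : (S none).ncard = Nat.card {x : 𝓞 k ⧸ Ideal.span {(4 : 𝓞 k)} //
          ∃ q, IsUnit q ∧ q ^ 2 + x = 0} :=
        ncard_unit (fun a : 𝓞 k ⧸ Ideal.span {(4 : 𝓞 k)} => ∃ q, IsUnit q ∧ q ^ 2 + a = 0)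
      rw [e4]
      exact e3
    have e5 := hlmu k Q2 (fun p => by
      rw [hQ2, Finset.mem_filter]
      exact ⟨fun h => h.2, fun h => ⟨hQ p h, h⟩⟩)
    have e6 : ∏ p ∈ Q2, (1 - 1 / np p) = ∏ p ∈ Q2, dm p := by
      apply Finset.prod_congr rfl
      intro p hp
      rw [dm, if_pos (Finset.mem_filter.1 hp).2]
    have e7 : ((S none).ncard : ℝ) * 2 ^ finrank ℚ k = 4 ^ finrank ℚ k * ∏ p ∈ Q2, dm p := by
      rw [← e6, ← e5, ← e2]
      push_cast
      ring
    have e8 : ((S none).ncard : ℝ) = 4 ^ finrank ℚ k * (∏ p ∈ Q2, dm p) / 2 ^ finrank ℚ k := by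
      rw [eq_div_iff (by positivity)]
      exact e7
    have e9 : ∏ p ∈ Q, dm p = (∏ p ∈ Q2, dm p) * ∏ p : Q', dm (p : HeightOneSpectrum (𝓞 k)) := by
      rw [Finset.prod_coe_sort Q' (fun p => dm p)]
      exact (Finset.prod_filter_mul_prod_filter_not Q _ _).symm
    have e10 : ∏ p : Q', ((S (some p)).ncard : ℝ) =
        (∏ p : Q', (Ideal.absNorm (I (some p)) : ℝ)) *
          ∏ p : Q', dm (p : HeightOneSpectrum (𝓞 k)) := by
      rw [← Finset.prod_mul_distrib]
      exact Finset.prod_congr rfl (fun p _ => hT2 p)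
    have e11 : (Ideal.absNorm (I none) : ℝ) = 4 ^ finrank ℚ k := absNorm_four
    rw [e1, hT'2, map_prod, Fintype.prod_option, Fintype.prod_option]
    push_cast
    rw [e8, e9, e10, e11]
    apply le_of_eq
    ring

end Pool.Agent.LeoK.H37
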