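import Pool.Agent.LeoK.CountStmts

/-!
Squad leok, module PCK: packing bound.
-/

set_option autoImplicit false

open Module MeasureTheory

namespace Pool.Agent.LeoK.H37

theorem pck_card {E : Type} [NormedAddCommGroup E] [NormedSpace ℝ E] [FiniteDimensional ℝ E]
    {a ρ t : ℝ} (ha : 0 < a) (hρ : 0 < ρ) (ht : 1 ≤ t) (F : Finset E)
    (hF : ∀ y ∈ F, ‖y‖ ≤ t * a) (hs : ∀ x ∈ F, ∀ y ∈ F, x ≠ y → ρ ≤ ‖x - y‖) :
    (F.card : ℝ) ≤ (2 * a / ρ + 1) ^ finrank ℝ E * t ^ finrank ℝ E := by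
  letI : MeasurableSpace E := borel E
  haveI : BorelSpace E := ⟨rfl⟩
  let μ : Measure E := Measure.addHaar
  have ht0 : 0 < t := by linarith
  have hr : 0 < t * a + ρ / 2 := by positivity
  have hdis : (F : Set E).PairwiseDisjoint fun y => Metric.ball y (ρ / 2) := by
    intro x hx y hy hxy
    apply Metric.ball_disjoint_ball
    rw [dist_eq_norm]
    have := hs x hx y hy hxy
    linarith
  have h1 : μ (⋃ y ∈ F, Metric.ball y (ρ / 2)) = ∑ y ∈ F, μ (Metric.ball y (ρ / 2)) :=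
    measure_biUnion_finset hdis fun _ _ => Metric.isOpen_ball.measurableSet
  have h2 : (⋃ y ∈ F, Metric.ball y (ρ / 2)) ⊆ Metric.ball (0 : E) (t * a + ρ / 2) := by
    intro z hz
    simp only [Set.mem_iUnion, Metric.mem_ball, exists_prop] at hz
    obtain ⟨y, hy, hz⟩ := hz
    rw [Metric.mem_ball, dist_zero_right]
    rw [dist_eq_norm] at hz
    have h3 := hF y hy
    have h4 : ‖z‖ ≤ ‖z - y‖ + ‖y‖ := by
      have := norm_add_le (z - y) y
      rwa [sub_add_cancel] at this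
    linarith
  have h3 := (measure_mono h2 : μ _ ≤ μ _)
  rw [h1] at h3
  have h4 : ∀ y ∈ F, μ (Metric.ball y (ρ / 2)) =
      ENNReal.ofReal ((ρ / 2) ^ finrank ℝ E) * μ (Metric.ball 0 1) := fun y _ =>
    Measure.addHaar_ball_of_pos μ y (by positivity)
  rw [Finset.sum_congr rfl h4, Finset.sum_const, Measure.addHaar_ball_of_pos μ 0 hr,
    nsmul_eq_mul, ← mul_assoc] at h3
  have hb0 : μ (Metric.ball 0 1) ≠ 0 := (Metric.measure_ball_pos μ 0 one_pos).ne'
  have hbt : μ (Metric.ball 0 1) ≠ ⊤ := measure_ball_lt_top.ne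
  have h5 : (F.card : ENNReal) * ENNReal.ofReal ((ρ / 2) ^ finrank ℝ E) ≤
      ENNReal.ofReal ((t * a + ρ / 2) ^ finrank ℝ E) :=
    (ENNReal.mul_le_mul_iff_left hb0 hbt).mp h3
  have h6 : (F.card : ℝ) * (ρ / 2) ^ finrank ℝ E ≤ (t * a + ρ / 2) ^ finrank ℝ E := by
    rw [← ENNReal.ofReal_natCast, ← ENNReal.ofReal_mul (by positivity)] at h5
    exact (ENNReal.ofReal_le_ofReal_iff (by positivity)).mp h5
  have h7 : (t * a + ρ / 2) ^ finrank ℝ E ≤
      ((2 * a / ρ + 1) ^ finrank ℝ E * t ^ finrank ℝ E) * (ρ / 2) ^ finrank ℝ E := by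
    rw [← mul_pow, ← mul_pow]
    apply pow_le_pow_left₀ (by positivity)
    have : (2 * a / ρ + 1) * t * (ρ / 2) = t * a + t * (ρ / 2) := by field_simp
    rw [this]
    nlinarith
  exact le_of_mul_le_mul_right (h6.trans h7) (by positivity)

theorem pck : PckStmt := by
  intro E _ _ _ D hD ρ hρ
  obtain ⟨a0, ha0⟩ := hD.exists_norm_le
  set a : ℝ := max a0 1 with ha
  have hapos : 0 < a := lt_of_lt_of_le one_pos (le_max_right _ _)
  refine ⟨(2 * a / ρ + 1) ^ finrank ℝ E, by positivity, ?_⟩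
  intro t ht L hL
  have ht0 : 0 < t := by linarith
  set S : Set E := {y : E | y ∈ L ∧ t⁻¹ • y ∈ D} with hS
  have key : ∀ F : Finset E, (F : Set E) ⊆ S →
      (F.card : ℝ) ≤ (2 * a / ρ + 1) ^ finrank ℝ E * t ^ finrank ℝ E := by
    intro F hF
    apply pck_card hapos hρ ht F
    · intro y hy
      have h1 := ha0 _ (hF hy).2
      rw [norm_smul, norm_inv, Real.norm_of_nonneg ht0.le] at h1
      have h2 : t * (t⁻¹ * ‖y‖) ≤ t * a :=
        mul_le_mul_of_nonneg_left (h1.trans (le_max_left _ _)) ht0.le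
      rwa [← mul_assoc, mul_inv_cancel₀ ht0.ne', one_mul] at h2
    · intro x hx y hy hxy
      exact hL _ (L.sub_mem (hF hx).1 (hF hy).1) (sub_ne_zero.mpr hxy)
  have hfin : S.Finite := by
    by_contra hinf
    obtain ⟨F, hF, hc⟩ := (show S.Infinite from hinf).exists_subset_card_eq
      (⌊(2 * a / ρ + 1) ^ finrank ℝ E * t ^ finrank ℝ E⌋₊ + 1)
    have h1 := key F hF
    rw [hc] at h1
    push_cast at h1
    have h2 := Nat.lt_floor_add_one ((2 * a / ρ + 1) ^ finrank ℝ E * t ^ finrank ℝ E)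
    linarith
  refine ⟨hfin, ?_⟩
  have h1 := key hfin.toFinset (by rw [hfin.coe_toFinset])
  rwa [Set.ncard_eq_toFinset_card S hfin]

end Pool.Agent.LeoK.H37
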