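import Pool.Agent.LeoK.CountStmts
import Pool.Agent.Helper37_LeoK.Pck
import Pool.Agent.Helper83_LeoK.Nor

/-!
Squad leok, module MSA: integers of the cone in residue classes.
-/

set_option autoImplicit false

open NumberField IsDedekindDomain Module MeasureTheory

namespace Pool.Agent.LeoK.H37

variable {k : Type} [Field k] [NumberField k]

/-- `lam` on the integers as an additive homomorphism -/
def lamHom (k : Type) [Field k] [NumberField k] : 𝓞 k →+ (Sg k → ℝ) where
  toFun x := lam (x : k)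
  map_zero' := by
    funext s
    simp [lam]
  map_add' x y := by
    funext s
    simp [lam]

theorem lamHom_apply (x : 𝓞 k) (s : Sg k) : lamHom k x s = s (x : k) := rfl

theorem lamHom_inj [Nonempty (Sg k)] : Function.Injective (lamHom k) := by
  intro x y h
  obtain ⟨s⟩ := (inferInstance : Nonempty (Sg k))
  have h1 : s (x : k) = s (y : k) := congrFun h s
  exact NumberField.RingOfIntegers.ext (s.injective h1)

theorem one_le_norm_lam (hnor : NorStmt) (htr : IsTotallyReal k) (x : 𝓞 k) (hx : x ≠ 0) :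
    1 ≤ ‖lamHom k x‖ := by
  classical
  obtain ⟨-, -, h3⟩ := hnor k htr
  obtain ⟨h4, -⟩ := h3 x hx
  by_contra hlt
  rw [not_le] at hlt
  have h5 : ∀ s : Sg k, |s (x : k)| < 1 := by
    intro s
    exact lt_of_le_of_lt (norm_le_pi_norm (lamHom k x) s) hlt
  have hne : Nonempty (Sg k) := by
    by_contra hemp
    rw [not_nonempty_iff] at hemp
    have h1 : ‖lamHom k x‖ = 0 := by
      have : lamHom k x = 0 := Subsingleton.elim _ _
      rw [this, norm_zero]
    obtain ⟨hc, -, -⟩ := hnor k htr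
    rw [Fintype.card_eq_zero] at hc
    have := finrank_pos (R := ℚ) (M := k)
    omega
  have h6 : ∏ s : Sg k, |s (x : k)| < ∏ s : Sg k, (1 : ℝ) := by
    apply Finset.prod_lt_prod_of_nonempty
    · intro s _
      rw [abs_pos, Ne, map_eq_zero]
      intro h
      exact hx (NumberField.RingOfIntegers.ext h)
    · intro s _
      exact h5 s
    · exact Finset.univ_nonempty
  rw [Finset.prod_const_one] at h6
  linarith

theorem fin_cone (hnor : NorStmt) (hcon : ConStmt) (htr : IsTotallyReal k) (Φ : Frame k) (Z : ℝ)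
    (hZ : 0 < Z) : {m : 𝓞 k | lam (m : k) ∈ Φ.F ∧ ∏ s : Sg k, s (m : k) ≤ Z}.Finite := by
  classical
  obtain ⟨hcard, -, -, -, -, hT⟩ := hcon k htr Φ
  have hne : Nonempty (Sg k) := by
    rw [← Fintype.card_pos_iff, hcard]
    exact finrank_pos
  have hb := (hT Z hZ).2.2.2
  obtain ⟨A, -, hA⟩ := pck (Sg k → ℝ) _ hb 1 one_pos
  have h1 := (hA 1 le_rfl (lamHom k).range (by
    rintro y ⟨x, rfl⟩ hy
    apply one_le_norm_lam hnor htr
    rintro rfl
    exact hy (map_zero _))).1
  refine Set.Finite.of_finite_image (f := lamHom k) (h1.subset ?_) (lamHom_inj.injOn)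
  rintro y ⟨m, ⟨hm1, hm2⟩, rfl⟩
  refine ⟨⟨m, rfl⟩, ?_⟩
  rw [inv_one, one_smul]
  exact ⟨hm1, hm2⟩

theorem msa' (hltl : LtlStmt) (hcov : CovStmt) (hcon : ConStmt) (hnor : NorStmt) : MsaStmt := by
  intro k _ _ htr Φ N hN S ε hε
  classical
  obtain ⟨hcard, hD, hvF, hcF, hcmp, hT⟩ := hcon k htr Φ
  set n := finrank ℚ k with hn
  have hn0 : 0 < n := finrank_pos
  have hne : Nonempty (Sg k) := by
    rw [← Fintype.card_pos_iff, hcard]
    exact hn0
  obtain ⟨B', hB'1, hB'2⟩ := hcov k htr Φ N hN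
  have hfin : Finite (𝓞 k ⧸ N) := Ideal.finiteQuotientOfFreeOfNeBot _ hN
  have hNpos : (0 : ℝ) < (Ideal.absNorm N : ℝ) := by
    have : Ideal.absNorm N ≠ 0 := by
      rw [Ne, Ideal.absNorm_eq_zero_iff]
      exact hN
    exact_mod_cast Nat.pos_of_ne_zero this
  set U : Set (Sg k → ℝ) := interior (Φ.F ∩ {x | ∏ s, x s ≤ 1}) with hU
  have hUo : IsOpen U := isOpen_interior
  have hUb : Bornology.IsBounded U := (hT 1 one_pos).2.2.2.subset interior_subset
  have hUv : (volume U).toReal = Φ.vF := by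
    rw [Frame.vF, hU, measure_interior_of_null_frontier Φ.null]
  set K : ℝ := (S.ncard : ℝ) + 1 with hK
  have hKpos : 0 < K := by positivity
  set ε' : ℝ := ε * Φ.D * (Ideal.absNorm N : ℝ) / K with hε'
  have hε'pos : 0 < ε' := by positivity
  obtain ⟨t₀, ht₀, H⟩ := hltl (Sg k → ℝ) volume Φ.κ U hUo hUb 1
    (Φ.D * (Ideal.absNorm N : ℝ)) ε' one_pos hε'pos
  refine ⟨max 1 (t₀ ^ n), ?_⟩
  intro Z hZ
  have hZ1 : 1 ≤ Z := (le_max_left _ _).trans hZ
  have hZt : t₀ ^ n ≤ Z := (le_max_right _ _).trans hZ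
  have hZ0 : 0 < Z := by linarith
  set t : ℝ := Z ^ (1 / n : ℝ) with ht
  have htpos : 0 < t := Real.rpow_pos_of_pos hZ0 _
  have htn : t ^ n = Z := by
    rw [ht, one_div]
    exact Real.rpow_inv_natCast_pow hZ0.le hn0.ne'
  have htt : t₀ ≤ t := by
    by_contra hlt
    rw [not_le] at hlt
    have := pow_lt_pow_left₀ hlt htpos.le hn0.ne'
    rw [htn] at this
    linarith
  -- representatives
  choose rep hrep using fun c : 𝓞 k ⧸ N => Ideal.Quotient.mk_surjective c
  have Hc : ∀ c : 𝓞 k ⧸ N, (Φ.vF - ε') * Z ≤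
      ({y : Sg k → ℝ | y ∈ Submodule.span ℤ (Set.range B') ∧
        t⁻¹ • (lamHom k (rep c) + y) ∈ U}.ncard : ℝ) * (Φ.D * (Ideal.absNorm N : ℝ)) := by
    intro c
    have h1 := (H t htt B' (by
      intro y hy hy0
      obtain ⟨x, -, rfl⟩ := (hB'1 y).1 hy
      apply one_le_norm_lam hnor htr x
      rintro rfl
      exact hy0 (map_zero (lamHom k))) hB'2.le (lamHom k (rep c))).2
    rw [hB'2, hUv, Module.finrank_fintype_fun_eq_card, hcard, htn] at h1
    exact h1
  -- the set of the statement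
  set G : Set (𝓞 k) := {m : 𝓞 k | Ideal.Quotient.mk N m ∈ S ∧ lam (m : k) ∈ Φ.F ∧
    ∏ s : Sg k, s (m : k) ≤ Z} with hG
  have hGfin : G.Finite := (fin_cone hnor hcon htr Φ Z hZ0).subset (fun m hm => hm.2)
  have hSfin : S.Finite := Set.toFinite S
  have hfib : ∀ c ∈ S, (Φ.vF - ε') * Z ≤
      (((hGfin.toFinset).filter (fun m => Ideal.Quotient.mk N m = c)).card : ℝ) *
        (Φ.D * (Ideal.absNorm N : ℝ)) := by
    intro c hc
    refine (Hc c).trans (mul_le_mul_of_nonneg_right ?_ (by positivity))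
    set W := (hGfin.toFinset).filter (fun m => Ideal.Quotient.mk N m = c) with hW
    have h2 : {y : Sg k → ℝ | y ∈ Submodule.span ℤ (Set.range B') ∧
        t⁻¹ • (lamHom k (rep c) + y) ∈ U} ⊆
        ((fun m : 𝓞 k => lamHom k m - lamHom k (rep c)) '' (W : Set (𝓞 k))) := by
      rintro y ⟨hy1, hy2⟩
      obtain ⟨x, hx, rfl⟩ := (hB'1 y).1 hy1
      refine ⟨rep c + x, ?_, ?_⟩
      · have h3 : lamHom k (rep c) + lam (x : k) = lamHom k (rep c + x) := by
          rw [map_add]
          rfl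
        rw [h3] at hy2
        have h4 : t⁻¹ • lamHom k (rep c + x) ∈ Φ.F ∩ {x | ∏ s, x s ≤ 1} := interior_subset hy2
        have h5 : Ideal.Quotient.mk N (rep c + x) = c := by
          rw [map_add, Ideal.Quotient.eq_zero_iff_mem.2 hx, add_zero, hrep]
        rw [Finset.mem_coe, hW, Finset.mem_filter, Set.Finite.mem_toFinset]
        refine ⟨⟨?_, ?_, ?_⟩, h5⟩
        · rw [h5]
          exact hc
        · have h6 := Φ.scal _ h4.1 t htpos
          rw [smul_smul, mul_inv_cancel₀ htpos.ne', one_smul] at h6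
          exact h6
        · have h7 : ∏ s : Sg k, (t⁻¹ • lamHom k (rep c + x)) s ≤ 1 := h4.2
          have h8 : ∏ s : Sg k, (t⁻¹ • lamHom k (rep c + x)) s =
              (t⁻¹) ^ n * ∏ s : Sg k, s ((rep c + x : 𝓞 k) : k) := by
            rw [← hcard, ← Finset.card_univ, ← Finset.prod_const, ← Finset.prod_mul_distrib]
            rfl
          rw [h8, inv_pow, htn, inv_mul_le_iff₀ hZ0, mul_one] at h7
          exact h7
      · show lamHom k (rep c + x) - lamHom k (rep c) = lam (x : k)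
        rw [map_add, add_sub_cancel_left]
        rfl
    have h9 := Set.ncard_le_ncard h2 ((Finset.finite_toSet W).image _)
    have h10 := Set.ncard_image_le (f := fun m : 𝓞 k => lamHom k m - lamHom k (rep c))
      (Finset.finite_toSet W)
    rw [Set.ncard_coe_finset] at h10
    exact_mod_cast h9.trans h10
  have hsum : (G.ncard : ℝ) = ∑ c ∈ hSfin.toFinset,
      (((hGfin.toFinset).filter (fun m => Ideal.Quotient.mk N m = c)).card : ℝ) := by
    rw [Set.ncard_eq_toFinset_card G hGfin]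
    rw [Finset.card_eq_sum_card_fiberwise (f := fun m => Ideal.Quotient.mk N m)
      (t := hSfin.toFinset)]
    · push_cast
      rfl
    · intro m hm
      rw [Finset.mem_coe, Set.Finite.mem_toFinset] at hm ⊢
      exact hm.1
  have hfinal : (S.ncard : ℝ) * ((Φ.vF - ε') * Z) ≤
      (G.ncard : ℝ) * (Φ.D * (Ideal.absNorm N : ℝ)) := by
    rw [hsum, Finset.sum_mul]
    have h1 : (S.ncard : ℝ) * ((Φ.vF - ε') * Z) = ∑ _c ∈ hSfin.toFinset, (Φ.vF - ε') * Z := by
      rw [Finset.sum_const, nsmul_eq_mul, Set.ncard_eq_toFinset_card S hSfin]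
    rw [h1]
    apply Finset.sum_le_sum
    intro c hc
    exact hfib c ((Set.Finite.mem_toFinset hSfin).1 hc)
  have hDN : 0 < Φ.D * (Ideal.absNorm N : ℝ) := by positivity
  have h1 : (S.ncard : ℝ) * ε' ≤ ε * (Φ.D * (Ideal.absNorm N : ℝ)) := by
    have h2 : (S.ncard : ℝ) * ε' = ε * (Φ.D * (Ideal.absNorm N : ℝ)) * ((S.ncard : ℝ) / K) := by
      rw [hε']
      ring
    rw [h2]
    have h3 : (S.ncard : ℝ) / K ≤ 1 := by
      rw [div_le_one hKpos, hK]
      linarith
    have h4 : 0 ≤ ε * (Φ.D * (Ideal.absNorm N : ℝ)) := by positivity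
    exact mul_le_of_le_one_right h4 h3
  have h5 : ((S.ncard : ℝ) / (Ideal.absNorm N : ℝ) * Φ.vF / Φ.D - ε) * Z *
      (Φ.D * (Ideal.absNorm N : ℝ)) ≤ (S.ncard : ℝ) * ((Φ.vF - ε') * Z) := by
    have h6 : ((S.ncard : ℝ) / (Ideal.absNorm N : ℝ) * Φ.vF / Φ.D - ε) * Z *
      (Φ.D * (Ideal.absNorm N : ℝ)) =
        (S.ncard : ℝ) * Φ.vF * Z - ε * (Φ.D * (Ideal.absNorm N : ℝ)) * Z := by
      field_simp
    rw [h6]
    have h7 := mul_le_mul_of_nonneg_right h1 hZ0.le
    nlinarith [h7]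
  exact le_of_mul_le_mul_right (h5.trans hfinal) hDN

theorem msa (hltl : LtlStmt) (hcov : CovStmt) (hcon : ConStmt) : MsaStmt :=
  msa' hltl hcov hcon H83.nor

end Pool.Agent.LeoK.H37
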